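import Pool.Agent.W873.RT.Stm
import Pool.Agent.W153.RS.NEG
import Pool.Agent.W336.RS.DET1

/-!
Project RT, part CNT: all real roots are counted.
-/

set_option autoImplicit false

open Polynomial

namespace Pool.Agent.W725.RT.CNT

open Pool.Agent.W873.RS (npos)
open Pool.Agent.W873.RT (sq)

theorem support_comp (p : ℝ[X]) : (p.comp (-X)).support = p.support := by
  ext n
  rw [mem_support_iff, mem_support_iff]
  have e : (-X : ℝ[X]) = C (-1) * X := by simp
  rw [e, comp_C_mul_X_coeff]
  simp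

theorem sq_comp {s : ℕ} (f : Fin s → ℝ[X]) (c : Fin s → ℝ) :
    (sq f c).comp (-X) = sq (fun i => (f i).comp (-X)) c := by
  unfold Pool.Agent.W873.RT.sq
  rw [Polynomial.sum_comp]
  refine Finset.sum_congr rfl fun i _ => ?_
  rw [mul_comp, C_comp, pow_comp]

theorem npos_le {s : ℕ} (f : Fin s → ℝ[X]) (T : ℝ[X]) (i0 : Fin s) (h0 : f i0 ≠ 0) :
    npos T ≤ (T.roots.toFinset.filter
        (fun x => 0 < x ∧ (∑ i, f i ^ 2 : ℝ[X]).eval x ≠ 0)).card +
      ∑ i, (f i).support.card := by
  classical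
  have h1 : T.roots.toFinset.filter (fun x => 0 < x) ⊆
      (T.roots.toFinset.filter (fun x => 0 < x ∧ (∑ i, f i ^ 2 : ℝ[X]).eval x ≠ 0)) ∪
      (T.roots.toFinset.filter (fun x => 0 < x ∧ (f i0).eval x = 0)) := by
    intro x hx
    rw [Finset.mem_filter] at hx
    rw [Finset.mem_union, Finset.mem_filter, Finset.mem_filter]
    by_cases h : (∑ i, f i ^ 2 : ℝ[X]).eval x = 0
    · right
      refine ⟨hx.1, hx.2, ?_⟩
      rw [eval_finsetSum] at h
      have h2 := (Finset.sum_eq_zero_iff_of_nonneg (fun i _ => by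
        rw [eval_pow]; positivity)).1 h i0 (Finset.mem_univ _)
      rw [eval_pow] at h2
      exact pow_eq_zero_iff (two_ne_zero) |>.1 h2
    · exact Or.inl ⟨hx.1, hx.2, h⟩
  have h3 : (T.roots.toFinset.filter (fun x => 0 < x ∧ (f i0).eval x = 0)).card ≤
      ∑ i, (f i).support.card := by
    have h4 := Pool.Agent.W336.RS.DET1.card_lt_support h0
      (T.roots.toFinset.filter (fun x => 0 < x ∧ (f i0).eval x = 0))
      (fun x hx => (Finset.mem_filter.1 hx).2)
    exact h4.le.trans (Finset.single_le_sum (f := fun i => (f i).support.card)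
      (fun i _ => Nat.zero_le _) (Finset.mem_univ i0))
  unfold npos
  exact (Finset.card_le_card h1).trans ((Finset.card_union_le _ _).trans
    (Nat.add_le_add_left h3 _))

theorem main : Pool.Agent.W873.RT.CNT := by
  intro s f c hs hf
  refine ⟨?_, fun i => by rw [support_comp], fun i => by
    rw [Ne, comp_neg_X_eq_zero_iff]; exact hf i⟩
  have h1 := Pool.Agent.W153.RS.NEG.roots_le (sq f c)
  have h2 := npos_le f (sq f c) ⟨0, hs⟩ (hf _)
  have h3 := npos_le (fun i => (f i).comp (-X)) (sq (fun i => (f i).comp (-X)) c) ⟨0, hs⟩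
    (by rw [Ne, comp_neg_X_eq_zero_iff]; exact hf _)
  rw [sq_comp] at h1
  simp only [support_comp] at h3
  omega

end Pool.Agent.W725.RT.CNT
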